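import Mathlib
import Pool.Agent.D0H22.SX.LowCore

set_option autoImplicit false

/-! Correlation of the difference of two consecutive weighted integrals with a short sum of characters, abstract form
(for project SX, second part, of helper82; variant of `Pool.Agent.D0H22.SX.LowCore`). -/

namespace Pool.Agent.D0H41.SX

open Complex Filter Topology MeasureTheory Set
open scoped ComplexConjugate
open Pool.Agent.D0H22.SX (swap_int int_cont)

theorem corrW {ι α : Type*} [Fintype ι] {B : Set (ι → ℝ)} (hB : IsCompact B) {Z : (ι → ℝ) → ℝ → ℂ}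
    (hZ : Continuous (Function.uncurry Z)) (F : Finset α) (c : α → (ι → ℝ) → ℂ)
    (hc : ∀ ν ∈ F, Continuous (c ν)) (W : ℝ → ℂ) (hW : Continuous W)
    (w θ : α → ℝ) (g : α → ℂ) {S M ρ c₀ K G H : ℝ} (hS : 0 ≤ S) (hM : 0 ≤ M)
    (hρ : 0 ≤ ρ) (hc₀ : 0 ≤ c₀) (hK : 0 ≤ K) (hG : 0 ≤ G) (hWK : ∀ t ∈ Icc 0 S, ‖W t‖ ≤ K)
    (hw : ∀ ν ∈ F, 0 ≤ w ν ∧ S * w ν ≤ H)
    (hmain : ∀ ν ∈ F, ∀ t ∈ Icc 0 (2 * S), ‖(∫ γ, Z γ t * conj (c ν γ) ∂(volume.restrict B)) -
      ((M * w ν : ℝ) : ℂ) * Complex.exp (I * (t : ℂ) * (θ ν : ℝ))‖ ≤ ρ * w ν)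
    (hg : ∀ ν ∈ F, g ν = (w ν : ℂ) * (∫ t in (0:ℝ)..S, W t * Complex.exp (I * (t : ℂ) * (θ ν : ℝ))) *
      (1 - Complex.exp (I * (S : ℂ) * (θ ν : ℝ))))
    (hgl : ∀ ν ∈ F, c₀ ≤ ‖g ν‖ ∧ ‖g ν‖ ≤ G) :
    F.card * (M * c₀ ^ 2 - G * (2 * K * H * ρ)) ≤ ‖∫ γ, ((∫ t in (0:ℝ)..S, W t * Z γ t) -
      ∫ t in (0:ℝ)..S, W t * Z γ (t + S)) * conj (∑ ν ∈ F, g ν * c ν γ) ∂(volume.restrict B)‖ := by
  have hZ1 : Continuous (Function.uncurry fun (γ : ι → ℝ) (t : ℝ) => W t * Z γ t) := by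
    have h2 : Continuous fun p : (ι → ℝ) × ℝ => Z p.1 p.2 := hZ
    show Continuous fun p : (ι → ℝ) × ℝ => W p.2 * Z p.1 p.2
    exact (hW.comp continuous_snd).mul h2
  have hZ2 : Continuous (Function.uncurry fun (γ : ι → ℝ) (t : ℝ) => W t * Z γ (t + S)) := by
    have h2 : Continuous fun p : (ι → ℝ) × ℝ => Z p.1 (p.2 + S) := by
      have h3 : Continuous fun p : (ι → ℝ) × ℝ => ((p.1, p.2 + S) : (ι → ℝ) × ℝ) := by fun_prop
      exact hZ.comp h3
    show Continuous fun p : (ι → ℝ) × ℝ => W p.2 * Z p.1 (p.2 + S)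
    exact (hW.comp continuous_snd).mul h2
  set D : (ι → ℝ) → ℂ := fun γ => (∫ t in (0:ℝ)..S, W t * Z γ t) - ∫ t in (0:ℝ)..S, W t * Z γ (t + S) with hD
  have hDc : Continuous D := (int_cont hZ1 _ _).sub (int_cont hZ2 _ _)
  set J : α → ℝ → ℂ := fun ν t => ∫ γ, Z γ t * conj (c ν γ) ∂(volume.restrict B) with hJ
  have hJc : ∀ ν ∈ F, Continuous (J ν) := by
    intro ν hν
    have h1 := hc ν hν
    have h2 : Continuous fun p : ℝ × (ι → ℝ) => Z p.2 p.1 := hZ.comp continuous_swap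
    have h3 : Continuous (Function.uncurry fun (t : ℝ) (γ : ι → ℝ) => Z γ t * conj (c ν γ)) := by
      show Continuous fun p : ℝ × (ι → ℝ) => Z p.2 p.1 * conj (c ν p.2)
      exact h2.mul (Complex.continuous_conj.comp (h1.comp continuous_snd))
    exact continuous_parametric_integral_of_continuous h3 hB
  have hm1 : ∀ ν ∈ F, Continuous (Function.uncurry fun (γ : ι → ℝ) (t : ℝ) => (W t * Z γ t) * conj (c ν γ)) := by
    intro ν hν
    have h1 := hc ν hν
    have h2 : Continuous fun p : (ι → ℝ) × ℝ => W p.2 * Z p.1 p.2 := hZ1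
    show Continuous fun p : (ι → ℝ) × ℝ => (W p.2 * Z p.1 p.2) * conj (c ν p.1)
    exact h2.mul (Complex.continuous_conj.comp (h1.comp continuous_fst))
  have hm2 : ∀ ν ∈ F, Continuous (Function.uncurry fun (γ : ι → ℝ) (t : ℝ) =>
      (W t * Z γ (t + S)) * conj (c ν γ)) := by
    intro ν hν
    have h1 := hc ν hν
    have h2 : Continuous fun p : (ι → ℝ) × ℝ => W p.2 * Z p.1 (p.2 + S) := hZ2
    show Continuous fun p : (ι → ℝ) × ℝ => (W p.2 * Z p.1 (p.2 + S)) * conj (c ν p.1)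
    exact h2.mul (Complex.continuous_conj.comp (h1.comp continuous_fst))
  have hI : ∀ ν ∈ F, ∫ γ, D γ * conj (c ν γ) ∂(volume.restrict B) =
      (∫ t in (0:ℝ)..S, W t * J ν t) - ∫ t in (0:ℝ)..S, W t * J ν (t + S) := by
    intro ν hν
    have e1 : ∀ t, W t * J ν t = ∫ γ, (W t * Z γ t) * conj (c ν γ) ∂(volume.restrict B) := by
      intro t
      simp only [hJ]
      rw [← integral_const_mul]
      refine integral_congr_ae (Eventually.of_forall fun γ => ?_)
      simp only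
      ring
    have e2 : ∀ t, W t * J ν (t + S) = ∫ γ, (W t * Z γ (t + S)) * conj (c ν γ) ∂(volume.restrict B) := by
      intro t
      simp only [hJ]
      rw [← integral_const_mul]
      refine integral_congr_ae (Eventually.of_forall fun γ => ?_)
      simp only
      ring
    simp_rw [e1, e2]
    rw [← swap_int hB (hm1 ν hν) hS, ← swap_int hB (hm2 ν hν) hS,
      ← integral_sub ((int_cont (hm1 ν hν) _ _).continuousOn.integrableOn_compact hB)
        ((int_cont (hm2 ν hν) _ _).continuousOn.integrableOn_compact hB)]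
    refine integral_congr_ae (Eventually.of_forall fun γ => ?_)
    simp only [hD]
    rw [sub_mul, ← intervalIntegral.integral_mul_const, ← intervalIntegral.integral_mul_const]
  have hE : ∀ ν ∈ F, ‖(∫ γ, D γ * conj (c ν γ) ∂(volume.restrict B)) - (M : ℂ) * g ν‖ ≤ 2 * K * H * ρ := by
    intro ν hν
    have hce : Continuous fun t : ℝ => W t * (((M * w ν : ℝ) : ℂ) * Complex.exp (I * (t : ℂ) * (θ ν : ℝ))) := by
      fun_prop
    have hce2 : Continuous fun t : ℝ => W t *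
        (((M * w ν : ℝ) : ℂ) * Complex.exp (I * ((t + S : ℝ) : ℂ) * (θ ν : ℝ))) := by
      fun_prop
    have hJ1 : Continuous fun t : ℝ => W t * J ν t := hW.mul (hJc ν hν)
    have hJ2 : Continuous fun t : ℝ => W t * J ν (t + S) :=
      hW.mul ((hJc ν hν).comp (by fun_prop : Continuous fun t : ℝ => t + S))
    have e0 : (M : ℂ) * g ν = (∫ t in (0:ℝ)..S, W t *
        (((M * w ν : ℝ) : ℂ) * Complex.exp (I * (t : ℂ) * (θ ν : ℝ)))) -
        ∫ t in (0:ℝ)..S, W t * (((M * w ν : ℝ) : ℂ) * Complex.exp (I * ((t + S : ℝ) : ℂ) * (θ ν : ℝ))) := by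
      rw [hg ν hν]
      have f1 : (∫ t in (0:ℝ)..S, W t * (((M * w ν : ℝ) : ℂ) * Complex.exp (I * (t : ℂ) * (θ ν : ℝ)))) =
          ((M * w ν : ℝ) : ℂ) * ∫ t in (0:ℝ)..S, W t * Complex.exp (I * (t : ℂ) * (θ ν : ℝ)) := by
        rw [← intervalIntegral.integral_const_mul]
        refine intervalIntegral.integral_congr fun t _ => ?_
        ring
      have f2 : (∫ t in (0:ℝ)..S, W t * (((M * w ν : ℝ) : ℂ) *
          Complex.exp (I * ((t + S : ℝ) : ℂ) * (θ ν : ℝ)))) =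
          ((M * w ν : ℝ) : ℂ) * Complex.exp (I * (S : ℂ) * (θ ν : ℝ)) *
            ∫ t in (0:ℝ)..S, W t * Complex.exp (I * (t : ℂ) * (θ ν : ℝ)) := by
        rw [← intervalIntegral.integral_const_mul]
        refine intervalIntegral.integral_congr fun t _ => ?_
        have : Complex.exp (I * ((t + S : ℝ) : ℂ) * (θ ν : ℝ)) =
            Complex.exp (I * (S : ℂ) * (θ ν : ℝ)) * Complex.exp (I * (t : ℂ) * (θ ν : ℝ)) := by
          rw [← Complex.exp_add]
          congr 1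
          push_cast
          ring
        rw [this]
        ring
      rw [f1, f2]
      push_cast
      ring
    have e1 : (∫ γ, D γ * conj (c ν γ) ∂(volume.restrict B)) - (M : ℂ) * g ν =
        (∫ t in (0:ℝ)..S, W t * (J ν t - ((M * w ν : ℝ) : ℂ) * Complex.exp (I * (t : ℂ) * (θ ν : ℝ)))) -
        ∫ t in (0:ℝ)..S, W t *
          (J ν (t + S) - ((M * w ν : ℝ) : ℂ) * Complex.exp (I * ((t + S : ℝ) : ℂ) * (θ ν : ℝ))) := by
      simp_rw [mul_sub]
      rw [hI ν hν, e0, intervalIntegral.integral_sub (hJ1.intervalIntegrable _ _)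
        (hce.intervalIntegrable _ _), intervalIntegral.integral_sub (hJ2.intervalIntegrable _ _)
        (hce2.intervalIntegrable _ _)]
      ring
    rw [e1]
    have h1 := intervalIntegral.norm_integral_le_of_norm_le_const (a := 0) (b := S) (C := K * (ρ * w ν))
      (f := fun t => W t * (J ν t - ((M * w ν : ℝ) : ℂ) * Complex.exp (I * (t : ℂ) * (θ ν : ℝ))))
      (fun t ht => by
        rw [uIoc_of_le hS] at ht
        rw [norm_mul]
        exact mul_le_mul (hWK t ⟨ht.1.le, ht.2⟩) (hmain ν hν t ⟨ht.1.le, by linarith [ht.2]⟩)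
          (norm_nonneg _) hK)
    have h2 := intervalIntegral.norm_integral_le_of_norm_le_const (a := 0) (b := S) (C := K * (ρ * w ν))
      (f := fun t => W t * (J ν (t + S) -
        ((M * w ν : ℝ) : ℂ) * Complex.exp (I * ((t + S : ℝ) : ℂ) * (θ ν : ℝ))))
      (fun t ht => by
        rw [uIoc_of_le hS] at ht
        rw [norm_mul]
        exact mul_le_mul (hWK t ⟨ht.1.le, ht.2⟩)
          (hmain ν hν (t + S) ⟨by linarith [ht.1], by linarith [ht.2]⟩) (norm_nonneg _) hK)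
    refine (norm_sub_le _ _).trans ((add_le_add h1 h2).trans ?_)
    rw [sub_zero, abs_of_nonneg hS]
    have h3 := (hw ν hν).2
    have h4 : K * (ρ * w ν) * S + K * (ρ * w ν) * S = 2 * K * ρ * (S * w ν) := by ring
    rw [h4]
    calc 2 * K * ρ * (S * w ν) ≤ 2 * K * ρ * H := mul_le_mul_of_nonneg_left h3 (by positivity)
      _ = _ := by ring
  have htot : ∫ γ, D γ * conj (∑ ν ∈ F, g ν * c ν γ) ∂(volume.restrict B) =
      ∑ ν ∈ F, conj (g ν) * ∫ γ, D γ * conj (c ν γ) ∂(volume.restrict B) := by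
    have e1 : ∀ γ, D γ * conj (∑ ν ∈ F, g ν * c ν γ) = ∑ ν ∈ F, conj (g ν) * (D γ * conj (c ν γ)) := by
      intro γ
      rw [map_sum, Finset.mul_sum]
      refine Finset.sum_congr rfl fun ν _ => ?_
      rw [map_mul]
      ring
    simp_rw [e1]
    rw [integral_finsetSum]
    · refine Finset.sum_congr rfl fun ν _ => ?_
      rw [integral_const_mul]
    · intro ν hν
      refine Continuous.continuousOn (continuous_const.mul (hDc.mul ?_)) |>.integrableOn_compact hB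
      exact Complex.continuous_conj.comp (hc ν hν)
  rw [htot]
  have e2 : ∑ ν ∈ F, conj (g ν) * ∫ γ, D γ * conj (c ν γ) ∂(volume.restrict B) =
      ((M * ∑ ν ∈ F, ‖g ν‖ ^ 2 : ℝ) : ℂ) +
      ∑ ν ∈ F, conj (g ν) * ((∫ γ, D γ * conj (c ν γ) ∂(volume.restrict B)) - (M : ℂ) * g ν) := by
    push_cast
    rw [Finset.mul_sum, ← Finset.sum_add_distrib]
    refine Finset.sum_congr rfl fun ν _ => ?_
    have h1 : ((‖g ν‖ : ℝ) : ℂ) ^ 2 = conj (g ν) * g ν := by
      rw [mul_comm, Complex.mul_conj, Complex.normSq_eq_norm_sq]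
      push_cast
      rfl
    rw [h1]
    ring
  rw [e2]
  have h3 : ‖∑ ν ∈ F, conj (g ν) * ((∫ γ, D γ * conj (c ν γ) ∂(volume.restrict B)) - (M : ℂ) * g ν)‖ ≤
      F.card * (G * (2 * K * H * ρ)) := by
    refine (norm_sum_le _ _).trans ?_
    rw [← nsmul_eq_mul]
    refine Finset.sum_le_card_nsmul _ _ _ fun ν hν => ?_
    rw [norm_mul, Complex.norm_conj]
    exact mul_le_mul (hgl ν hν).2 (hE ν hν) (norm_nonneg _) hG
  have h4 : F.card * c₀ ^ 2 ≤ ∑ ν ∈ F, ‖g ν‖ ^ 2 := by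
    rw [← nsmul_eq_mul]
    exact Finset.card_nsmul_le_sum _ _ _ fun ν hν => pow_le_pow_left₀ hc₀ (hgl ν hν).1 2
  have h5 : M * (F.card * c₀ ^ 2) ≤ M * ∑ ν ∈ F, ‖g ν‖ ^ 2 := mul_le_mul_of_nonneg_left h4 hM
  have h6 : ‖((M * ∑ ν ∈ F, ‖g ν‖ ^ 2 : ℝ) : ℂ)‖ = M * ∑ ν ∈ F, ‖g ν‖ ^ 2 := by
    rw [Complex.norm_real, Real.norm_of_nonneg]
    exact mul_nonneg hM (Finset.sum_nonneg fun ν _ => by positivity)
  have h7 := norm_sub_le_norm_add ((M * ∑ ν ∈ F, ‖g ν‖ ^ 2 : ℝ) : ℂ)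
    (∑ ν ∈ F, conj (g ν) * ((∫ γ, D γ * conj (c ν γ) ∂(volume.restrict B)) - (M : ℂ) * g ν))
  rw [h6] at h7
  have h8 : (F.card : ℝ) * (M * c₀ ^ 2 - G * (2 * K * H * ρ)) =
      M * (F.card * c₀ ^ 2) - F.card * (G * (2 * K * H * ρ)) := by ring
  rw [h8]
  linarith

end Pool.Agent.D0H41.SX
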