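import Pool.Agent.D0H82.SX.StmW
import Pool.Agent.D0H22.SX.Low
import Pool.Agent.D0H41.SX.LowCore

set_option autoImplicit false

/-! Module LOW2 of project SX (MP_07318d_nt slot 3, helper82), second part: a short sum of characters which correlates with
the difference of two consecutive weighted integrals. -/

namespace Pool.Agent.D0H41.SX

open Complex Filter Topology MeasureTheory Set
open scoped ComplexConjugate
open Pool.Agent.TH612.CF Pool.Agent.TH612.GS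
open Pool.Agent.D0H82.SX
open Pool.Agent.D0H22.SX (Zg_cont2 ch_cont mB_eq box_compact small_rpow wt_nonneg dl_pos)

noncomputable section

variable {k : ℕ}

/-- upper bound for the weight of a neighbouring pair -/
theorem wt_le {s : Bool} {ν : Fin k ⊕ Fin k → ℕ} {N : ℕ} (h : Adj s ν N) (hN : 1 ≤ N) : (N : ℝ) * wt ν ≤ 1 := by
  have h1 : (∏ i, (ν i : ℝ)) = (N : ℝ) * (N + 1) := by
    rw [Fintype.prod_sum_type]
    cases s with
    | true =>
      obtain ⟨h2, h3⟩ := h.1 rfl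
      have h4 : (∏ j, (ν (Sum.inl j) : ℝ)) = N := by exact_mod_cast h2
      have h5 : (∏ j, (ν (Sum.inr j) : ℝ)) = N + 1 := by exact_mod_cast h3
      rw [h4, h5]
    | false =>
      obtain ⟨h2, h3⟩ := h.2 rfl
      have h4 : (∏ j, (ν (Sum.inr j) : ℝ)) = N := by exact_mod_cast h2
      have h5 : (∏ j, (ν (Sum.inl j) : ℝ)) = N + 1 := by exact_mod_cast h3
      rw [h4, h5]
      ring
  have hN0 : (0 : ℝ) < N := by exact_mod_cast hN
  unfold wt
  rw [h1]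
  have h2 : ((N : ℝ) * (N + 1)) ^ (-(1 / 2) : ℝ) ≤ ((N : ℝ) ^ (2 : ℝ)) ^ (-(1 / 2) : ℝ) := by
    refine Real.rpow_le_rpow_of_nonpos (by positivity) ?_ (by norm_num)
    rw [Real.rpow_two]
    nlinarith
  have h3 : ((N : ℝ) ^ (2 : ℝ)) ^ (-(1 / 2) : ℝ) = (N : ℝ)⁻¹ := by
    rw [← Real.rpow_mul hN0.le, show (2 : ℝ) * (-(1 / 2)) = -1 by norm_num, Real.rpow_neg_one]
  rw [h3] at h2
  calc (N : ℝ) * _ ≤ N * (N : ℝ)⁻¹ := mul_le_mul_of_nonneg_left h2 hN0.le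
    _ = 1 := mul_inv_cancel₀ hN0.ne'

/-- upper bound for the coefficient -/
theorem gw_le {w : ℝ → ℂ} {K : ℝ} (hK : 0 ≤ K) (hw : ∀ x ∈ Icc (0:ℝ) 1, ‖w x‖ ≤ K) {S : ℝ} (hS : 0 < S)
    (ν : Fin k ⊕ Fin k → ℕ) : ‖gw w S ν‖ ≤ 2 * K * (S * wt ν) := by
  unfold gw
  have h1 : ‖(1 : ℂ) - Complex.exp (I * (S : ℂ) * (thv ν : ℝ))‖ ≤ 2 := by
    refine (norm_sub_le _ _).trans ?_
    have : ‖Complex.exp (I * (S : ℂ) * (thv ν : ℝ))‖ = 1 := by
      rw [show I * (S : ℂ) * (thv ν : ℝ) = ((S * thv ν : ℝ) : ℂ) * I by push_cast; ring]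
      exact Complex.norm_exp_ofReal_mul_I _
    rw [this]
    norm_num
  have h2 : ‖∫ t in (0:ℝ)..S, w (t / S) * Complex.exp (I * (t : ℂ) * (thv ν : ℝ))‖ ≤ K * |S - 0| := by
    refine intervalIntegral.norm_integral_le_of_norm_le_const fun t ht => ?_
    rw [uIoc_of_le hS.le] at ht
    have h3 : ‖Complex.exp (I * (t : ℂ) * (thv ν : ℝ))‖ = 1 := by
      rw [show I * (t : ℂ) * (thv ν : ℝ) = ((t * thv ν : ℝ) : ℂ) * I by push_cast; ring]
      exact Complex.norm_exp_ofReal_mul_I _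
    rw [norm_mul, h3, mul_one]
    exact hw _ ⟨by have := ht.1.le; positivity, (div_le_one hS).2 ht.2⟩
  rw [sub_zero, abs_of_pos hS] at h2
  have hwt := wt_nonneg ν
  rw [norm_mul, norm_mul, Complex.norm_real, Real.norm_of_nonneg hwt]
  calc _ ≤ (wt ν * (K * S)) * 2 := mul_le_mul (mul_le_mul_of_nonneg_left h2 hwt) h1 (norm_nonneg _) (by positivity)
    _ = _ := by ring

theorem t_LOW2 : S_COEF → S_FAM2 → S_GV2 → S_LOW2 := by
  intro hcoef hfam hgv k w hk hwc hw0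
  obtain ⟨C, T₁, hC, hT₁, hco⟩ := hcoef k
  obtain ⟨s, c₀, x₁, x₂, S₂, hc₀, hx₁, hx₁₂, hS₂, hgl⟩ := hgv w hwc hw0
  obtain ⟨cF, CF, S₁, hcF, hCF, hS₁, hfa⟩ := hfam k s x₁ x₂ hk hx₁ hx₁₂
  obtain ⟨K, hKw⟩ : ∃ K : ℝ, ∀ x ∈ Icc (0:ℝ) 1, ‖w x‖ ≤ K :=
    isCompact_Icc.exists_bound_of_continuousOn hwc.continuousOn
  have hK : 0 ≤ K := (norm_nonneg _).trans (hKw 0 ⟨le_rfl, zero_le_one⟩)
  have hd := dl_pos k
  set H : ℝ := 1 / x₁ with hH
  have hH0 : 0 < H := by positivity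
  set G : ℝ := 2 * K * H with hG
  have hG0 : 0 ≤ G := by positivity
  set m : ℝ := dl k ^ (2 * k) * c₀ ^ 2 with hm
  have hm0 : 0 < m := by positivity
  obtain ⟨T₂, hT₂⟩ := small_rpow (δ := m / (2 * (G * (2 * K * H * C) + 1))) (by positivity)
  refine ⟨cF * (m / 2), max (CF ^ 2) (CF * G ^ 2) + 1, max (max S₁ S₂) (1 / x₁), max (max T₁ T₂) (max (CF ^ 4) 4),
    by positivity, ?_, hS₁.trans ((le_max_left _ _).trans (le_max_left _ _)),
    (le_max_right _ _).trans (le_max_right _ _), fun T S hT hS hST => ?_⟩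
  · have : 0 ≤ max (CF ^ 2) (CF * G ^ 2) := le_max_of_le_left (by positivity)
    linarith
  have hTT₁ : T₁ ≤ T := (le_max_left _ _).trans ((le_max_left _ _).trans hT)
  have hTT₂ : T₂ ≤ T := (le_max_right _ _).trans ((le_max_left _ _).trans hT)
  have hTC : CF ^ 4 ≤ T := (le_max_left _ _).trans ((le_max_right _ _).trans hT)
  have hT4 : (4 : ℝ) ≤ T := (le_max_right _ _).trans ((le_max_right _ _).trans hT)
  have hSS₁ : S₁ ≤ S := (le_max_left _ _).trans ((le_max_left _ _).trans hS)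
  have hSS₂ : S₂ ≤ S := (le_max_right _ _).trans ((le_max_left _ _).trans hS)
  have hSx : 1 / x₁ ≤ S := (le_max_right _ _).trans hS
  have hT0 : 0 < T := by linarith
  have hS1 : 1 ≤ S := hS₁.trans hSS₁
  have hS0 : 0 ≤ S := by linarith
  have hSp : 0 < S := by linarith
  obtain ⟨F, hF1, hF2, hF3⟩ := hfa S hSS₁
  have hsq : Real.sqrt S ^ 2 = S := Real.sq_sqrt hS0
  have hX : ((⌊CF * Real.sqrt S⌋₊ : ℕ) : ℝ) ≤ CF * Real.sqrt S := Nat.floor_le (by positivity)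
  have hsub : F ⊆ tup k ⌊CF * Real.sqrt S⌋₊ := by
    intro ν hν
    unfold tup
    rw [Fintype.mem_piFinset]
    intro i
    obtain ⟨h1, h2⟩ := (hF3 ν hν).1 i
    exact Finset.mem_Icc.2 ⟨h1, Nat.le_floor h2⟩
  have h34 : CF * Real.sqrt S ≤ T ^ (3 / 4 : ℝ) := by
    have h1 : Real.sqrt S ≤ Real.sqrt T := Real.sqrt_le_sqrt (by linarith)
    have h2 : CF ≤ T ^ (1 / 4 : ℝ) := by
      have h3 : (CF ^ 4) ^ (1 / 4 : ℝ) ≤ T ^ (1 / 4 : ℝ) :=
        Real.rpow_le_rpow (by positivity) hTC (by norm_num)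
      have h4 : (CF ^ 4) ^ (1 / 4 : ℝ) = CF := by
        rw [← Real.rpow_natCast, ← Real.rpow_mul (by linarith)]
        norm_num
      rw [h4] at h3
      exact h3
    have h3 : T ^ (3 / 4 : ℝ) = T ^ (1 / 4 : ℝ) * Real.sqrt T := by
      rw [Real.sqrt_eq_rpow, ← Real.rpow_add hT0]
      norm_num
    rw [h3]
    have h4 := Real.sqrt_nonneg S
    exact mul_le_mul h2 h1 h4 (by linarith)
  classical
  set b : (Fin k ⊕ Fin k → ℕ) → ℂ := fun ν => if ν ∈ F then gw w S ν else 0 with hb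
  have hwt : ∀ ν ∈ F, S * wt ν ≤ H := by
    intro ν hν
    obtain ⟨_, N, hA, hN1, _⟩ := hF3 ν hν
    have hN0 : 1 ≤ N := by
      have h1 : 0 < (N : ℝ) := lt_of_lt_of_le (by positivity) hN1
      exact_mod_cast h1
    have h1 := wt_le hA hN0
    have h2 : x₁ * S * wt ν ≤ 1 := (mul_le_mul_of_nonneg_right hN1 (wt_nonneg ν)).trans h1
    rw [hH, le_div_iff₀ hx₁]
    linarith
  have hgF : ∀ ν ∈ F, c₀ ≤ ‖gw w S ν‖ ∧ ‖gw w S ν‖ ≤ G := by
    intro ν hν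
    obtain ⟨h1, N, hA, hN1, hN2⟩ := hF3 ν hν
    refine ⟨hgl k S ν N hSS₂ (fun i => (h1 i).1) hA hN1 hN2, (gw_le hK hKw hSp ν).trans ?_⟩
    rw [hG]
    exact mul_le_mul_of_nonneg_left (hwt ν hν) (by positivity)
  refine ⟨⌊CF * Real.sqrt S⌋₊, b, ?_, ?_, ?_⟩
  · have h0 : (0 : ℝ) ≤ ((⌊CF * Real.sqrt S⌋₊ : ℕ) : ℝ) := Nat.cast_nonneg _
    have h1 : CF ^ 2 ≤ max (CF ^ 2) (CF * G ^ 2) + 1 := (le_max_left _ _).trans (by linarith)
    calc ((⌊CF * Real.sqrt S⌋₊ : ℕ) : ℝ) ^ 2 ≤ (CF * Real.sqrt S) ^ 2 := pow_le_pow_left₀ h0 hX 2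
      _ = CF ^ 2 * S := by rw [mul_pow, hsq]
      _ ≤ (max (CF ^ 2) (CF * G ^ 2) + 1) * T :=
        mul_le_mul h1 (by linarith) hS0 ((by positivity : (0:ℝ) ≤ CF ^ 2).trans h1)
  · have h1 : ∑ ν ∈ tup k ⌊CF * Real.sqrt S⌋₊, ‖b ν‖ ^ 2 = ∑ ν ∈ F, ‖gw w S ν‖ ^ 2 := by
      rw [← Finset.sum_subset hsub (f := fun ν => ‖b ν‖ ^ 2)]
      · refine Finset.sum_congr rfl fun ν hν => ?_
        simp only [hb, if_pos hν]
      · intro ν _ hν
        simp only [hb, if_neg hν]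
        simp
    rw [h1]
    have h2 : ∑ ν ∈ F, ‖gw w S ν‖ ^ 2 ≤ F.card • (G ^ 2) := by
      refine Finset.sum_le_card_nsmul _ _ _ fun ν hν => ?_
      exact pow_le_pow_left₀ (norm_nonneg _) (hgF ν hν).2 2
    rw [nsmul_eq_mul] at h2
    have h3 : CF * G ^ 2 ≤ max (CF ^ 2) (CF * G ^ 2) + 1 := (le_max_right _ _).trans (by linarith)
    calc _ ≤ _ := h2
      _ ≤ (CF * S) * G ^ 2 := mul_le_mul_of_nonneg_right hF2 (by positivity)
      _ = CF * G ^ 2 * S := by ring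
      _ ≤ _ := mul_le_mul_of_nonneg_right h3 hS0
  · have h1 : ∀ γ, ∑ ν ∈ tup k ⌊CF * Real.sqrt S⌋₊, b ν * ch ν γ = ∑ ν ∈ F, gw w S ν * ch ν γ := by
      intro γ
      rw [← Finset.sum_subset hsub (f := fun ν => b ν * ch ν γ)]
      · refine Finset.sum_congr rfl fun ν hν => ?_
        simp only [hb, if_pos hν]
      · intro ν _ hν
        simp only [hb, if_neg hν]
        simp
    simp_rw [h1]
    rw [mB_eq]
    have hsm : T ^ (-(1 / 16) : ℝ) ≤ m / (2 * (G * (2 * K * H * C) + 1)) := hT₂ T hTT₂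
    have hr0 : 0 ≤ T ^ (-(1 / 16) : ℝ) := Real.rpow_nonneg hT0.le _
    have hWc : Continuous fun t : ℝ => w (t / S) := hwc.comp (by fun_prop)
    have key := corrW (box_compact k T) (Z := fun γ t => Zg γ t) Zg_cont2 F (fun ν => ch ν)
      (fun ν hν => ch_cont fun i => ((hF3 ν hν).1 i).1) (fun t => w (t / S)) hWc
      (fun ν => wt ν) (fun ν => thv ν) (fun ν => gw w S ν)
      (S := S) (M := (dl k * T) ^ (2 * k)) (ρ := C * T ^ (-(1 / 16) : ℝ) * T ^ (2 * k)) (c₀ := c₀)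
      (K := K) (G := G) (H := H)
      hS0 (by positivity) (by positivity) hc₀.le hK hG0
      (fun t ht => hKw _ ⟨by have := ht.1; positivity, (div_le_one hSp).2 ht.2⟩)
      (fun ν hν => ⟨wt_nonneg ν, hwt ν hν⟩)
      (fun ν hν t ht => by
        have h2 := hco T t ν hTT₁ ht.1 (by linarith [ht.2]) (fun i =>
          ⟨((hF3 ν hν).1 i).1, ((hF3 ν hν).1 i).2.trans h34⟩)
        rw [mB_eq] at h2
        exact h2)
      (fun ν hν => rfl)
      (fun ν hν => hgF ν hν)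
    refine le_trans ?_ key
    have h5 : (dl k * T) ^ (2 * k) * c₀ ^ 2 - G * (2 * K * H * (C * T ^ (-(1 / 16) : ℝ) * T ^ (2 * k))) =
        T ^ (2 * k) * (m - G * (2 * K * H * C) * T ^ (-(1 / 16) : ℝ)) := by
      rw [mul_pow, hm]
      ring
    rw [h5]
    have h6 : m / 2 ≤ m - G * (2 * K * H * C) * T ^ (-(1 / 16) : ℝ) := by
      set Q : ℝ := G * (2 * K * H * C) with hQ
      have hQ0 : 0 ≤ Q := by positivity
      have h7 : Q * T ^ (-(1 / 16) : ℝ) ≤ (Q + 1) * (m / (2 * (Q + 1))) :=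
        mul_le_mul (by linarith) hsm hr0 (by linarith)
      have h8 : (Q + 1) * (m / (2 * (Q + 1))) = m / 2 := by
        field_simp
      linarith
    have hTk : 0 < T ^ (2 * k) := by positivity
    calc cF * (m / 2) * S * T ^ (2 * k) = (cF * S) * (T ^ (2 * k) * (m / 2)) := by ring
      _ ≤ F.card * (T ^ (2 * k) * (m / 2)) := mul_le_mul_of_nonneg_right hF1 (by positivity)
      _ ≤ F.card * (T ^ (2 * k) * (m - G * (2 * K * H * C) * T ^ (-(1 / 16) : ℝ))) :=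
          mul_le_mul_of_nonneg_left (mul_le_mul_of_nonneg_left h6 hTk.le) (Nat.cast_nonneg _)

end

end Pool.Agent.D0H41.SX
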